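import Pool.Agent.Helper76.PB.GoalsF
import Pool.Agent.Helper32.PP.BNOR
import Pool.Agent.Helper16.PP.PUPR
import Pool.Agent.Helper32.RD.VAL

/-!
# Project B: the line (`X_LIN`)
-/

set_option autoImplicit false

namespace Pool.Agent.Helper96.PB

open NumberField Polynomial Module IsDedekindDomain
open Pool.Agent.Helper51.RP Pool.Agent.Helper42.RD Pool.Agent.Helper42.PP
open Pool.Agent.Helper76.PB
open Pool.Agent.Helper40.RS (bel gw val_smul bel_smul)
open Pool.Agent.Helper40.RD (valW ordW bel_of_above)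
open Pool.Agent.Helper32.PP (val_gal bel_gw norm_coe e_ne prod_lt prod_le')
open Pool.Agent.Helper32.RDV (weakApproxUnits val_one_of_close val_one_of_ordv)
open scoped Pointwise

section close

variable {F : Type} [Field F] [NumberField F]

/-- `z` is close to `1` at `v`. -/
def Cl (p : ℕ) (v : HeightOneSpectrum (𝓞 F)) (z : F) : Prop :=
  v.valuation F (z - 1) < 1 ∧ v.valuation F (z - 1) ≤ v.valuation F (p : F) ^ 3

theorem p_le_one (p : ℕ) (v : HeightOneSpectrum (𝓞 F)) : v.valuation F (p : F) ≤ 1 := by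
  have := v.valuation_le_one (K := F) (p : 𝓞 F)
  simpa using this

theorem cl_prod (p : ℕ) (v : HeightOneSpectrum (𝓞 F)) {ι : Type} (s : Finset ι) (f : ι → F)
    (hf : ∀ i ∈ s, Cl p v (f i)) : Cl p v (∏ i ∈ s, f i) :=
  ⟨prod_lt v s f fun i hi => (hf i hi).1,
    prod_le' v s f _ (pow_le_one₀ zero_le (p_le_one p v)) fun i hi => (hf i hi).2⟩

theorem Cl.val {p : ℕ} {v : HeightOneSpectrum (𝓞 F)} {z : F} (h : Cl p v z) :
    v.valuation F z = 1 := val_one_of_close v h.1

theorem Cl.mul {p : ℕ} {v : HeightOneSpectrum (𝓞 F)} {z z' : F} (h : Cl p v z)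
    (h' : Cl p v z') : Cl p v (z * z') := by
  have e : z * z' - 1 = (z - 1) * z' + (z' - 1) := by ring
  have e1 : v.valuation F ((z - 1) * z') = v.valuation F (z - 1) := by
    rw [map_mul, h'.val, mul_one]
  refine ⟨?_, ?_⟩
  · rw [e]
    exact Valuation.map_add_lt _ (by rw [e1]; exact h.1) h'.1
  · rw [e]
    exact Valuation.map_add_le _ (by rw [e1]; exact h.2) h'.2

theorem Cl.inv {p : ℕ} {v : HeightOneSpectrum (𝓞 F)} {z : F} (h : Cl p v z) :
    Cl p v z⁻¹ := by
  have h0 : z ≠ 0 := by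
    rintro rfl
    have := h.val
    rw [map_zero] at this
    exact zero_ne_one this
  have e : z⁻¹ - 1 = -((z - 1) * z⁻¹) := by field_simp; ring
  have e1 : v.valuation F (z⁻¹ - 1) = v.valuation F (z - 1) := by
    rw [e, Valuation.map_neg, map_mul, map_inv₀, h.val, inv_one, mul_one]
  exact ⟨by rw [e1]; exact h.1, by rw [e1]; exact h.2⟩

theorem cl_one (p : ℕ) (v : HeightOneSpectrum (𝓞 F)) : Cl p v (1 : F) := by
  unfold Cl
  rw [sub_self, map_zero]
  exact ⟨zero_lt_one, zero_le⟩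

theorem Cl.pow {p : ℕ} {v : HeightOneSpectrum (𝓞 F)} {z : F} (h : Cl p v z) (n : ℕ) :
    Cl p v (z ^ n) := by
  induction n with
  | zero => rw [pow_zero]; exact cl_one p v
  | succ n ih => rw [pow_succ]; exact ih.mul h

theorem cl_of_lt {p : ℕ} {v : HeightOneSpectrum (𝓞 F)} {z : F}
    (h : v.valuation F (z - 1) < 1) (hp : v.valuation F (p : F) = 1) : Cl p v z :=
  ⟨h, by rw [hp, one_pow]; exact h.le⟩

/-- Weak approximation for units. -/
theorem approx_cl (p : ℕ) [hp : Fact p.Prime] (S : Finset (HeightOneSpectrum (𝓞 F)))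
    (t : HeightOneSpectrum (𝓞 F) → Fˣ) :
    ∃ y : Fˣ, ∀ w ∈ S, Cl p w ((y : F) / (t w : F)) := by
  have hp0 : (p : F) ≠ 0 := Nat.cast_ne_zero.2 hp.out.ne_zero
  obtain ⟨y, hy⟩ := weakApproxUnits S t
    (fun w => w.valuation F (p : F) ^ 3 * w.valuation F (t w : F))
    (fun w => mul_ne_zero (pow_ne_zero _ ((Valuation.ne_zero_iff _).2 hp0))
      ((Valuation.ne_zero_iff _).2 (t w).ne_zero))
  refine ⟨y, fun w hw => ?_⟩
  obtain ⟨h1, h2⟩ := hy w hw
  have e : (y : F) / (t w : F) - 1 = ((y : F) - t w) / (t w : F) := by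
    rw [sub_div, div_self (t w).ne_zero]
  have h3 : 0 < w.valuation F (t w : F) :=
    zero_lt_iff.2 ((Valuation.ne_zero_iff _).2 (t w).ne_zero)
  refine ⟨?_, ?_⟩
  · rw [e, map_div₀]
    exact (div_lt_one₀ h3).2 h2
  · rw [e, map_div₀]
    exact (div_le_iff₀ h3).2 h1

end close

section norms

variable {F E : Type} [Field F] [NumberField F] [Field E] [NumberField E] [Algebra F E]

theorem mem_upZ (Z : Set (HeightOneSpectrum (𝓞 F))) (W : HeightOneSpectrum (𝓞 E)) :
    W ∈ upZ E Z ↔ bel F W ∈ Z := by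
  constructor
  · rintro ⟨v, hv, h⟩
    rw [bel_of_above h]
    exact hv
  · intro h
    exact ⟨bel F W, h, rfl⟩

/-- Closeness in `E` and in `F`. -/
theorem cl_of_cl {p : ℕ} (W : HeightOneSpectrum (𝓞 E)) {x : F}
    (h : Cl p W (algebraMap F E x)) : Cl p (bel F W) x := by
  obtain ⟨h1, h2⟩ := h
  have e1 : algebraMap F E x - 1 = algebraMap F E (x - 1) := by rw [map_sub, map_one]
  have e2 : (p : E) = algebraMap F E (p : F) := by rw [map_natCast]
  rw [e1, valW] at h1
  rw [e1, e2, valW, valW, ← pow_mul, mul_comm _ 3, pow_mul] at h2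
  exact ⟨(pow_lt_one_iff (e_ne W)).1 h1, (pow_le_pow_iff_left₀ zero_le zero_le (e_ne W)).1 h2⟩

/-- An element whose norm is close to `x` at the primes above `p`, and to `1` at the other primes
of `Z`. -/
theorem exists_norm [IsGalois F E] (p : ℕ) [hp : Fact p.Prime] (Z : Finset (HeightOneSpectrum (𝓞 F)))
    (hfree : ∀ W : HeightOneSpectrum (𝓞 E), W.valuation E (p : E) < 1 → FreeP F W) (x : Fˣ) :
    ∃ y : Eˣ, ∀ v ∈ Z,
      (v.valuation F (p : F) < 1 → Cl p v (((nrm F E y : Fˣ) : F) / (x : F))) ∧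
      (v.valuation F (p : F) = 1 → Cl p v ((nrm F E y : Fˣ) : F)) := by
  classical
  obtain ⟨hfin, -, -, -, -, hex, -⟩ := Pool.Agent.Helper16.PP.p_upr p F E Z
  choose sel hsel using hex
  have hselb : ∀ v, bel F (sel v) = v := fun v => bel_of_above (hsel v)
  let t : HeightOneSpectrum (𝓞 E) → Eˣ := fun W =>
    if sel (bel F W) = W ∧ W.valuation E (p : E) < 1 then inc F E x else 1
  obtain ⟨y, hy⟩ := approx_cl p hfin.toFinset t
  refine ⟨y, fun v hv => ?_⟩
  have hgwup : ∀ h : E ≃ₐ[F] E, gw h⁻¹ (sel v) ∈ up E Z := by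
    intro h
    rw [Pool.Agent.Helper32.PP.mem_up, bel_gw, hselb]
    exact hv
  -- the translates of `t` are fixed by the Galois group
  have htg : ∀ (h : E ≃ₐ[F] E) (W : HeightOneSpectrum (𝓞 E)), h ((t W : Eˣ) : E) = (t W : Eˣ) := by
    intro h W
    show h (((if sel (bel F W) = W ∧ W.valuation E (p : E) < 1 then inc F E x else 1 : Eˣ)) : E) =
      ((if sel (bel F W) = W ∧ W.valuation E (p : E) < 1 then inc F E x else 1 : Eˣ) : E)
    split_ifs
    · exact h.commutes _
    · rw [Units.val_one, map_one]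
  have hpg : ∀ h : E ≃ₐ[F] E, (gw h⁻¹ (sel v)).valuation E (p : E) =
      (sel v).valuation E (p : E) := by
    intro h
    rw [← val_gal, map_natCast]
  have hcl : ∀ h : E ≃ₐ[F] E, Cl p (sel v) (h (y : E) / (t (gw h⁻¹ (sel v)) : Eˣ)) := by
    intro h
    have h1 := hy _ (hfin.mem_toFinset.2 (hgwup h))
    have e : h (y : E) / ((t (gw h⁻¹ (sel v)) : Eˣ) : E) - 1 =
        h ((y : E) / ((t (gw h⁻¹ (sel v)) : Eˣ) : E) - 1) := by
      rw [map_sub, map_one, map_div₀, htg]
    unfold Cl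
    rw [e, val_gal, ← hpg h]
    exact h1
  have hprod := cl_prod p (sel v) Finset.univ
    (fun h : E ≃ₐ[F] E => h (y : E) / ((t (gw h⁻¹ (sel v)) : Eˣ) : E)) fun h _ => hcl h
  rw [Finset.prod_div_distrib, ← norm_coe] at hprod
  have hpv : (sel v).valuation E (p : E) < 1 ↔ v.valuation F (p : F) < 1 := by
    have e2 : (p : E) = algebraMap F E (p : F) := by rw [map_natCast]
    rw [e2, valW, hselb]
    have := e_ne (E := F) (sel v)
    rw [hselb] at this
    exact pow_lt_one_iff this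
  refine ⟨fun hvp => ?_, fun hvp => ?_⟩
  · have hf := hfree _ (hpv.2 hvp)
    have e1 : ∏ h : E ≃ₐ[F] E, ((t (gw h⁻¹ (sel v)) : Eˣ) : E) = algebraMap F E (x : F) := by
      rw [Finset.prod_eq_single 1]
      · have h3 : gw (1 : E ≃ₐ[F] E)⁻¹ (sel v) = sel v := by
          apply HeightOneSpectrum.ext
          show (1 : E ≃ₐ[F] E)⁻¹ • (sel v).asIdeal = (sel v).asIdeal
          rw [inv_one, one_smul]
        rw [h3]
        show ((if sel (bel F (sel v)) = sel v ∧ (sel v).valuation E (p : E) < 1 then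
          inc F E x else 1 : Eˣ) : E) = _
        rw [if_pos ⟨by rw [hselb], hpv.2 hvp⟩]
        rfl
      · intro h _ hne
        show ((if sel (bel F (gw h⁻¹ (sel v))) = gw h⁻¹ (sel v) ∧
          (gw h⁻¹ (sel v)).valuation E (p : E) < 1 then inc F E x else 1 : Eˣ) : E) = 1
        rw [if_neg, Units.val_one]
        rintro ⟨h1, -⟩
        rw [bel_gw, hselb] at h1
        apply hne
        apply hf
        intro z
        rw [val_gal, ← h1]
      · intro h
        exact absurd (Finset.mem_univ _) h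
    rw [e1, ← map_div₀] at hprod
    have := cl_of_cl _ hprod
    rwa [hselb] at this
  · have e1 : ∏ h : E ≃ₐ[F] E, ((t (gw h⁻¹ (sel v)) : Eˣ) : E) = 1 := by
      refine Finset.prod_eq_one fun h _ => ?_
      show ((if sel (bel F (gw h⁻¹ (sel v))) = gw h⁻¹ (sel v) ∧
        (gw h⁻¹ (sel v)).valuation E (p : E) < 1 then inc F E x else 1 : Eˣ) : E) = 1
      rw [if_neg, Units.val_one]
      rintro ⟨-, h1⟩
      rw [hpg h, hpv, hvp] at h1
      exact lt_irrefl _ h1
    rw [e1, div_one] at hprod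
    have := cl_of_cl _ hprod
    rwa [hselb] at this

/-- Part (1): the functional is of tame local nature. -/
theorem kilT_of_kil [IsGalois F E] (p : ℕ) [hp : Fact p.Prime]
    {Z : Set (HeightOneSpectrum (𝓞 F))} (hZ : Z.Finite)
    (hfree : ∀ W : HeightOneSpectrum (𝓞 E), W.valuation E (p : E) < 1 → FreeP F W)
    {f : Fˣ → ZMod p} (hf : Kil p Z f) (hN : ∀ y : Eˣ, f (nrm F E y) = 0) : KilT p Z f := by
  classical
  refine ⟨hf.hom, fun x hx => ?_, hf.unit⟩
  obtain ⟨y, hy⟩ := exists_norm (E := E) p hZ.toFinset hfree x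
  have hc : ∀ v : HeightOneSpectrum (𝓞 F), ∃ c : Fˣ, v ∈ Z →
      Cl p v (((x / nrm F E y : Fˣ) : F) * (c : F) ^ p) := by
    intro v
    by_cases hv : v ∈ Z
    · obtain ⟨h1, h2⟩ := hy v (hZ.mem_toFinset.2 hv)
      rcases lt_or_eq_of_le (p_le_one p v) with hvp | hvp
      · refine ⟨1, fun _ => ?_⟩
        have h3 := (h1 hvp).inv
        rw [inv_div] at h3
        rw [Units.val_one, one_pow, mul_one, Units.val_div_eq_div_val]
        exact h3
      · obtain ⟨c, hc⟩ := hx v hv hvp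
        have hc0 : c ≠ 0 := by
          rintro rfl
          rw [zero_pow hp.out.ne_zero, mul_zero, zero_sub, Valuation.map_neg, map_one] at hc
          exact lt_irrefl _ hc
        refine ⟨Units.mk0 c hc0, fun _ => ?_⟩
        have h3 := (cl_of_lt hc hvp).mul (h2 hvp).inv
        rw [Units.val_div_eq_div_val, Units.val_mk0]
        have e : (x : F) / ((nrm F E y : Fˣ) : F) * c ^ p =
            (x : F) * c ^ p * ((nrm F E y : Fˣ) : F)⁻¹ := by
          rw [div_eq_mul_inv]
          ring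
        rw [e]
        exact h3
    · exact ⟨1, fun h => absurd h hv⟩
  choose c hc using hc
  obtain ⟨d, hd⟩ := approx_cl p hZ.toFinset c
  have h1 : LocS p Z (x / nrm F E y) := by
    refine ⟨d, fun w hw => ?_⟩
    have h3 := (hc w hw).mul ((hd w (hZ.mem_toFinset.2 hw)).pow p)
    have e : ((x / nrm F E y : Fˣ) : F) * (c w : F) ^ p * ((d : F) / (c w : F)) ^ p =
        ((x / nrm F E y : Fˣ) : F) * (d : F) ^ p := by
      rw [div_pow, mul_assoc, mul_div_cancel₀ _ (pow_ne_zero _ (c w).ne_zero)]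
    rw [e] at h3
    exact h3
  have h2 := hf.hom (x / nrm F E y) (nrm F E y)
  rw [div_mul_cancel, hf.loc _ h1, hN, add_zero] at h2
  exact h2

/-- Part (2): the functional vanishes at the primes split in `E`. -/
theorem van_of_split [IsGalois F E] (p : ℕ) [hp : Fact p.Prime]
    {Z : Set (HeightOneSpectrum (𝓞 F))} (hZ : Z.Finite) (hPr : PrZ E (upZ E Z))
    {f : Fˣ → ZMod p} (hf : Kil p Z f) (hN : ∀ y : Eˣ, f (nrm F E y) = 0)
    {w : HeightOneSpectrum (𝓞 F)} (hw : w ∈ SplZ E Z) : Van Z f w := by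
  classical
  obtain ⟨hwZ, W, hW, hfree⟩ := hw
  obtain ⟨y, hy⟩ := hPr (Finsupp.single W 1)
  have hup : up E hZ.toFinset = upZ E Z := by
    ext W'
    rw [Pool.Agent.Helper32.PP.mem_up, mem_upZ, hZ.mem_toFinset]
  have hupF : ∀ v, v ∈ up F hZ.toFinset ↔ v ∈ Z := by
    intro v
    rw [Pool.Agent.Helper32.PP.mem_up, hZ.mem_toFinset]
    have e : bel F v = v := by
      apply HeightOneSpectrum.ext
      show v.asIdeal.comap (algebraMap (𝓞 F) (𝓞 F)) = v.asIdeal
      exact Ideal.comap_id _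
    rw [e]
  obtain ⟨-, -, -, h4⟩ := Pool.Agent.Helper32.PP.b_nor Pool.Agent.Helper16.PP.p_upr p F F E
    hZ.toFinset
  have h5 := h4 w W w (fun h => hwZ (hZ.mem_toFinset.1 h)) hW hW hfree y (by
    intro W' hW'
    rw [hup] at hW'
    have h6 := hy W' hW'
    refine ⟨fun e => ?_, fun e => ?_⟩
    · rw [h6, e, Finsupp.single_eq_same]
    · rw [h6, Finsupp.single_eq_of_ne e])
  intro x hx
  have h7 : x / nrm F E y ∈ Z.unit F := by
    intro v hv
    have h8 := h5 v (fun h => hv ((hupF v).1 h))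
    have h9 := hx v hv
    have h10 : ordv v (x : F) = ordv v ((nrm F E y : Fˣ) : F) := by
      by_cases hvw : v = w
      · rw [h8.1 hvw, h9.1 hvw]
      · rw [h8.2 hvw, h9.2 hvw]
    refine val_one_of_ordv v (Units.ne_zero _) ?_
    have h11 := Pool.Agent.Helper32.RDV.ordv_mul v (x := ((x / nrm F E y : Fˣ) : F)) (y := ((nrm F E y : Fˣ) : F))
      (Units.ne_zero _) (Units.ne_zero _)
    rw [← Units.val_mul, div_mul_cancel, h10] at h11
    linarith
  have h2 := hf.hom (x / nrm F E y) (nrm F E y)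
  rw [div_mul_cancel, hf.unit _ h7, hN, add_zero] at h2
  exact h2

end norms

/-- Part (3), Galois theory: a `p`-th root in a cyclic extension is in the subextension of
degree `p`. -/
theorem root_below {p : ℕ} [hp : Fact p.Prime] {F E₁ E₂ : Type} [Field F] [Field E₁] [Field E₂]
    [Algebra F E₁] [Algebra F E₂] [Algebra E₁ E₂] [IsScalarTower F E₁ E₂] [FiniteDimensional F E₂]
    [IsGalois F E₁] [IsGalois F E₂] [IsCyclic (E₂ ≃ₐ[F] E₂)] {ε : F} (hε : IsPrimitiveRoot ε p)
    (h1 : finrank F E₁ = p) {b : F} (hb : b ≠ 0) (y : E₂) (hy : y ^ p = algebraMap F E₂ b) :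
    ∃ r : E₁, r ^ p = algebraMap F E₁ b := by
  have hE : IsGalois E₁ E₂ := IsGalois.tower_top_of_isGalois F E₁ E₂
  have hfd : FiniteDimensional F E₁ := FiniteDimensional.of_finrank_pos (by
    rw [h1]; exact hp.out.pos)
  have hy0 : y ≠ 0 := by
    rintro rfl
    rw [zero_pow hp.out.ne_zero] at hy
    exact hb ((map_eq_zero _).1 hy.symm)
  obtain ⟨σ, hσ⟩ := IsCyclic.exists_generator (α := E₂ ≃ₐ[F] E₂)
  have hε' : IsPrimitiveRoot (algebraMap F E₂ ε) p :=
    hε.map_of_injective (algebraMap F E₂).injective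
  obtain ⟨j, -, hj⟩ := hε'.eq_pow_of_pow_eq_one (ξ := σ y / y) (by
    rw [div_pow, ← map_pow, hy, AlgEquiv.commutes]
    exact div_self (by rw [Ne, map_eq_zero]; exact hb))
  have hσy : σ y = algebraMap F E₂ (ε ^ j) * y := by
    rw [map_pow, hj, div_mul_cancel₀ _ hy0]
  have hσi : ∀ i : ℕ, (σ ^ i) y = algebraMap F E₂ (ε ^ (j * i)) * y := by
    intro i
    induction i with
    | zero => simp
    | succ i ih =>
      rw [pow_succ', AlgEquiv.mul_apply, ih, map_mul, AlgEquiv.commutes, hσy, ← mul_assoc,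
        ← map_mul, ← pow_add]
      rfl
  have hfd2 : FiniteDimensional E₁ E₂ := FiniteDimensional.right F E₁ E₂
  have hcard : Nat.card (E₁ ≃ₐ[F] E₁) = p := by rw [IsGalois.card_aut_eq_finrank, h1]
  have hr : y ∈ Set.range (algebraMap E₁ E₂) := by
    rw [IsGalois.mem_range_algebraMap_iff_fixed]
    intro h
    obtain ⟨i, hi⟩ := Subgroup.mem_zpowers_iff.1 (hσ (h.restrictScalars F))
    have hfin : IsOfFinOrder σ := isOfFinOrder_of_finite σ
    obtain ⟨n, hn⟩ : ∃ n : ℕ, σ ^ n = h.restrictScalars F := by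
      have h2 : h.restrictScalars F ∈ Submonoid.powers σ :=
        (hfin.mem_powers_iff_mem_zpowers).2 (hσ _)
      obtain ⟨n, hn⟩ := h2
      exact ⟨n, hn⟩
    have h3 : AlgEquiv.restrictNormalHom E₁ (σ ^ n) = 1 := by
      rw [hn]
      apply AlgEquiv.ext
      intro x
      apply (algebraMap E₁ E₂).injective
      exact (AlgEquiv.restrictNormal_commutes (h.restrictScalars F) E₁ x).trans (h.commutes x)
    rw [map_pow] at h3
    have h4 : orderOf (AlgEquiv.restrictNormalHom E₁ σ : E₁ ≃ₐ[F] E₁) = p := by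
      rw [← hcard]
      apply orderOf_eq_card_of_forall_mem_zpowers
      intro g
      obtain ⟨g', rfl⟩ := AlgEquiv.restrictNormalHom_surjective (F := F) (K₁ := E₁) (E := E₂) g
      obtain ⟨i', rfl⟩ := Subgroup.mem_zpowers_iff.1 (hσ g')
      exact Subgroup.mem_zpowers_iff.2 ⟨i', by rw [map_zpow]⟩
    have h5 : p ∣ n := by
      rw [← h4]
      exact orderOf_dvd_of_pow_eq_one h3
    have h6 : h y = (σ ^ n) y := by rw [hn]; rfl
    obtain ⟨q, rfl⟩ := h5
    rw [h6, hσi, mul_left_comm, pow_mul, hε.pow_eq_one, one_pow, map_one, one_mul]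
  obtain ⟨r, rfl⟩ := hr
  refine ⟨r, ?_⟩
  apply (algebraMap E₁ E₂).injective
  rw [map_pow, hy, ← IsScalarTower.algebraMap_apply]

theorem x_lin (h1 : X_CNT) (h2 : X_DB) (h3 : X_KLB) : X_LIN := by
  intro p hp F E₁ E₂ _ _ _ _ _ _ _ _ _ _ _ _ _ _ ε hε hE₁ _ Z hZ hab hunr hPr hInj hPr₂ hfree
    f hf hN w hw
  by_cases hf0 : ∃ x, f x ≠ 0
  · have hT : KilT p Z f := kilT_of_kil (E := E₂) p hZ hfree hf hN
    obtain ⟨b, hbu, -, hb⟩ := h1 p F ε hε Z hZ hab hPr hInj f hT hf0
    obtain ⟨y, hy⟩ := h2 p F E₂ ε hε Z hZ hab hunr hPr f hf hf0 b hb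
      fun w' hw' => van_of_split (E := E₂) p hZ hPr₂ hf hN hw'
    obtain ⟨r, hr⟩ := root_below (E₁ := E₁) hε hE₁ b.ne_zero y hy
    obtain ⟨hwZ, W, hW, hWf⟩ := hw
    apply hb w hwZ
    have hwp : w.valuation F (p : F) = 1 := by
      rcases lt_or_eq_of_le (p_le_one p w) with h | h
      · exact absurd (hab h) hwZ
      · exact h
    have hwb : ordv w (b : F) = 0 := by
      have h4 : w.valuation F (b : F) = 1 := hbu w hwZ
      unfold ordv
      rw [h4, WithZero.log_one, neg_zero]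
    exact h3.1 p F E₁ w W hW hWf hwp b r hr b.ne_zero hwb
  · push Not at hf0
    intro x _
    exact hf0 x

end Pool.Agent.Helper96.PB
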